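import Pool.Agent.H31.FPP

namespace Pool.Agent.Results.MP_eb30e1_co.MaxAdj

open Finset Pool.Agent.H31.FPP

def L (u i a b : ℕ) : Prop := a < u ∨ (a = u ∧ b ≤ i)

def r1 (u i y : ℕ) : Prop := y = 1 ∨ (y = 2 ∧ L u i 3 1) ∨ (3 ≤ y ∧ L u i y 2)
def r3 (u i y : ℕ) : Prop :=
  y = 3 ∨ (y % 2 = 0 ∧ 2 ≤ y ∧ L u i (y + 2) 1) ∨ (y % 2 = 1 ∧ 5 ≤ y ∧ L u i y (y - 1))
def r4 (u i x y : ℕ) : Prop :=
  y = x ∨ (x % 2 = 0 ∧ y + 2 = x ∧ L u i (x + 1) 1) ∨ (x % 2 = 0 ∧ y = x + 1 ∧ L u i y (y - 2)) ∨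
    (y % 2 = 0 ∧ 2 ≤ y ∧ y + 4 ≤ x ∧ L u i x (y + 1)) ∨ (y % 2 = 1 ∧ 5 ≤ y ∧ y < x ∧ L u i x (y - 1))

def r (u i x y : ℕ) : Prop :=
  if x = 0 then y ≠ 1 else if x = 1 then r1 u i y else if x = 2 then y = 2 else
    if x = 3 then r3 u i y else r4 u i x y

instance (u i x y : ℕ) : Decidable (r u i x y) := by unfold r r1 r3 r4 L; infer_instance

theorem e0 (u i y : ℕ) : r u i 0 y ↔ y ≠ 1 := by simp [r]
theorem e1 (u i y : ℕ) : r u i 1 y ↔ r1 u i y := by simp [r]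
theorem e2 (u i y : ℕ) : r u i 2 y ↔ y = 2 := by simp [r]
theorem e3 (u i y : ℕ) : r u i 3 y ↔ r3 u i y := by simp [r]
theorem e4 (u i x y : ℕ) (h : 4 ≤ x) : r u i x y ↔ r4 u i x y := by
  unfold r
  rw [if_neg (by omega), if_neg (by omega), if_neg (by omega), if_neg (by omega)]

theorem cls (x : ℕ) : x = 0 ∨ x = 1 ∨ x = 2 ∨ x = 3 ∨ 4 ≤ x := by omega

def ok (u i : ℕ) : Prop := 3 ≤ u ∧ i + 1 ≤ u ∧ (u % 2 = 0 → i + 2 ≤ u)

theorem r_refl (u i x : ℕ) : r u i x x := by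
  unfold r r1 r3 r4; split_ifs <;> omega

theorem r_anti (u i x y : ℕ) (h1 : r u i x y) (h2 : r u i y x) : x = y := by
  rcases cls x with rfl | rfl | rfl | rfl | hx <;> rcases cls y with rfl | rfl | rfl | rfl | hy <;>
    simp only [e0, e1, e2, e3, e4, *] at h1 h2 <;> (try unfold r1 at *) <;> (try unfold r3 at *) <;>
    (try unfold r4 at *) <;> omega

theorem t44 (u i x y z : ℕ) (h : ok u i) (hx : 4 ≤ x) (hy : 4 ≤ y) (h1 : r4 u i x y)
    (h2 : r4 u i y z) : r4 u i x z := by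
  unfold ok at h
  unfold r4 L at *
  rcases h1 with h1 | h1 | h1 | h1 | h1 <;> rcases h2 with h2 | h2 | h2 | h2 | h2 <;>
  first | (left; omega) | (right; left; omega) | (right; right; left; omega) |
    (right; right; right; left; omega) | (right; right; right; right; omega)

theorem t34 (u i y z : ℕ) (h : ok u i) (hy : 4 ≤ y) (h1 : r3 u i y)
    (h2 : r4 u i y z) : r3 u i z := by
  unfold ok at h
  unfold r3 r4 L at *
  rcases h1 with h1 | h1 | h1 <;> rcases h2 with h2 | h2 | h2 | h2 | h2 <;>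
  first | (left; omega) | (right; left; omega) | (right; right; omega)

theorem t14 (u i y z : ℕ) (h : ok u i) (hy : 4 ≤ y) (h1 : r1 u i y)
    (h2 : r4 u i y z) : r1 u i z := by
  unfold ok at h
  unfold r1 r4 L at *
  rcases h1 with h1 | h1 | h1 <;> rcases h2 with h2 | h2 | h2 | h2 | h2 <;> omega

theorem r_trans (u i x y z : ℕ) (h : ok u i) (h1 : r u i x y) (h2 : r u i y z) : r u i x z := by
  by_cases exy : x = y
  · rwa [exy]
  by_cases eyz : y = z
  · rwa [← eyz]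
  rcases cls x with rfl | rfl | rfl | rfl | hx
  · rw [e0] at h1 ⊢
    rintro rfl
    rcases cls y with rfl | rfl | rfl | rfl | hy
    · omega
    · omega
    · rw [e2] at h2; omega
    · rw [e3] at h2; unfold r3 at h2; omega
    · rw [e4 _ _ _ _ hy] at h2; unfold r4 at h2; omega
  · rw [e1] at h1 ⊢
    rcases cls y with rfl | rfl | rfl | rfl | hy
    · unfold r1 at h1; omega
    · omega
    · rw [e2] at h2; omega
    · rw [e3] at h2; unfold ok at h; unfold r3 L at h2; unfold r1 L at h1 ⊢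
      rcases h2 with h2 | h2 | h2 <;> omega
    · rw [e4 _ _ _ _ hy] at h2; exact t14 _ _ _ _ h hy h1 h2
  · rw [e2] at h1; omega
  · rw [e3] at h1 ⊢
    rcases cls y with rfl | rfl | rfl | rfl | hy
    · unfold r3 at h1; omega
    · unfold r3 at h1; omega
    · rw [e2] at h2; omega
    · omega
    · rw [e4 _ _ _ _ hy] at h2; exact t34 _ _ _ _ h hy h1 h2
  · rw [e4 _ _ _ _ hx] at h1 ⊢
    rcases cls y with rfl | rfl | rfl | rfl | hy
    · unfold r4 at h1; omega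
    · unfold r4 at h1; omega
    · rw [e2] at h2; omega
    · unfold r4 at h1; omega
    · rw [e4 _ _ _ _ hy] at h2; exact t44 _ _ _ _ _ h hx hy h1 h2

def T (x y a b : ℕ) : Prop :=
  (x = 0 ∧ 2 ≤ y ∧ a = 0 ∧ b = 0) ∨ (x = 1 ∧ y = 2 ∧ a = 3 ∧ b = 1) ∨
  (x = 1 ∧ 3 ≤ y ∧ a = y ∧ b = 2) ∨ (x = 3 ∧ y % 2 = 0 ∧ 2 ≤ y ∧ a = y + 2 ∧ b = 1) ∨
  (x = 3 ∧ y % 2 = 1 ∧ 5 ≤ y ∧ a = y ∧ b = y - 1) ∨
  (4 ≤ x ∧ x % 2 = 0 ∧ y + 2 = x ∧ a = x + 1 ∧ b = 1) ∨
  (4 ≤ x ∧ x % 2 = 0 ∧ y = x + 1 ∧ a = y ∧ b = y - 2) ∨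
  (4 ≤ x ∧ y % 2 = 0 ∧ 2 ≤ y ∧ y + 4 ≤ x ∧ a = x ∧ b = y + 1) ∨
  (4 ≤ x ∧ y % 2 = 1 ∧ 5 ≤ y ∧ y < x ∧ a = x ∧ b = y - 1)

theorem rT (u i x y : ℕ) (hu : 3 ≤ u) : r u i x y ↔ x = y ∨ ∃ a b, T x y a b ∧ L u i a b := by
  constructor
  · intro h
    by_cases e : x = y
    · exact Or.inl e
    right
    unfold T
    rcases cls x with rfl | rfl | rfl | rfl | hx
    · rw [e0] at h
      exact ⟨0, 0, Or.inl ⟨rfl, by omega, rfl, rfl⟩, Or.inl (by omega)⟩
    · rw [e1] at h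
      rcases h with h | h | h
      · omega
      · exact ⟨_, _, Or.inr (Or.inl ⟨rfl, h.1, rfl, rfl⟩), h.2⟩
      · exact ⟨_, _, Or.inr (Or.inr (Or.inl ⟨rfl, h.1, rfl, rfl⟩)), h.2⟩
    · rw [e2] at h; omega
    · rw [e3] at h
      rcases h with h | h | h
      · omega
      · exact ⟨_, _, Or.inr (Or.inr (Or.inr (Or.inl ⟨rfl, h.1, h.2.1, rfl, rfl⟩))), h.2.2⟩
      · exact ⟨_, _, Or.inr (Or.inr (Or.inr (Or.inr (Or.inl ⟨rfl, h.1, h.2.1, rfl, rfl⟩)))), h.2.2⟩
    · rw [e4 _ _ _ _ hx] at h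
      rcases h with h | h | h | h | h
      · omega
      · exact ⟨_, _, Or.inr (Or.inr (Or.inr (Or.inr (Or.inr (Or.inl ⟨hx, h.1, h.2.1, rfl, rfl⟩))))), h.2.2⟩
      · exact ⟨_, _, Or.inr (Or.inr (Or.inr (Or.inr (Or.inr (Or.inr (Or.inl ⟨hx, h.1, h.2.1, rfl, rfl⟩)))))), h.2.2⟩
      · exact ⟨_, _, Or.inr (Or.inr (Or.inr (Or.inr (Or.inr (Or.inr (Or.inr (Or.inl ⟨hx, h.1, h.2.1, h.2.2.1, rfl, rfl⟩))))))),
          h.2.2.2⟩
      · exact ⟨_, _, Or.inr (Or.inr (Or.inr (Or.inr (Or.inr (Or.inr (Or.inr (Or.inr (⟨hx, h.1, h.2.1, h.2.2.1, rfl, rfl⟩)))))))),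
          h.2.2.2⟩
  · rintro (rfl | ⟨a, b, h, hl⟩)
    · exact r_refl _ _ _
    rcases h with ⟨rfl, h, rfl, rfl⟩ | ⟨rfl, rfl, rfl, rfl⟩ | ⟨rfl, h, rfl, rfl⟩ |
      ⟨rfl, h, h', rfl, rfl⟩ | ⟨rfl, h, h', rfl, rfl⟩ | ⟨hx, h, h', rfl, rfl⟩ |
      ⟨hx, h, h', rfl, rfl⟩ | ⟨hx, h, h', h'', rfl, rfl⟩ | ⟨hx, h, h', h'', rfl, rfl⟩
    · rw [e0]; omega
    · rw [e1]; exact Or.inr (Or.inl ⟨rfl, hl⟩)
    · rw [e1]; exact Or.inr (Or.inr ⟨h, hl⟩)
    · rw [e3]; exact Or.inr (Or.inl ⟨h, h', hl⟩)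
    · rw [e3]; exact Or.inr (Or.inr ⟨h, h', hl⟩)
    · rw [e4 _ _ _ _ hx]; exact Or.inr (Or.inl ⟨h, h', hl⟩)
    · rw [e4 _ _ _ _ hx]; exact Or.inr (Or.inr (Or.inl ⟨h, h', hl⟩))
    · rw [e4 _ _ _ _ hx]; exact Or.inr (Or.inr (Or.inr (Or.inl ⟨h, h', h'', hl⟩)))
    · rw [e4 _ _ _ _ hx]; exact Or.inr (Or.inr (Or.inr (Or.inr ⟨h, h', h'', hl⟩)))

theorem T_u1 {x y a b a' b' : ℕ} (h : T x y a b) (h' : T x y a' b') : a = a' ∧ b = b' := by
  rcases h with h | h | h | h | h | h | h | h | h <;>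
    rcases h' with h' | h' | h' | h' | h' | h' | h' | h' | h' <;> omega

theorem T_u2 {x y x' y' a b : ℕ} (h : T x y a b) (h' : T x' y' a b) (ha : 3 ≤ a) :
    x = x' ∧ y = y' := by
  rcases h with h | h | h | h | h | h | h | h | h <;>
    rcases h' with h' | h' | h' | h' | h' | h' | h' | h' | h' <;> omega

theorem T_b {x y a b : ℕ} (h : T x y a b) :
    x ≠ y ∧ (a = 0 ∨ (1 ≤ b ∧ b ≤ 2 * ((a - 1) / 2))) := by
  rcases h with h | h | h | h | h | h | h | h | h <;> omega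

theorem T_ex (u i : ℕ) (h : ok u (i + 1)) : ∃ x y, x ≤ u ∧ y ≤ u ∧ T x y u (i + 1) := by
  unfold ok at h
  unfold T
  by_cases a1 : i = 1
  · exact ⟨1, u, by omega, by omega, by right; right; left; omega⟩
  by_cases a2 : u = 3
  · exact ⟨1, 2, by omega, by omega, by right; left; omega⟩
  by_cases a3 : i = 0
  · by_cases a4 : u % 2 = 0
    · exact ⟨3, u - 2, by omega, by omega, by right; right; right; left; omega⟩
    · exact ⟨u - 1, u - 3, by omega, by omega, by right; right; right; right; right; left; omega⟩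
  by_cases a5 : u % 2 = 1 ∧ i + 3 = u
  · exact ⟨u - 1, u, by omega, by omega,
      by right; right; right; right; right; right; left; omega⟩
  by_cases a6 : u % 2 = 1 ∧ i + 2 = u
  · exact ⟨3, u, by omega, by omega, by right; right; right; right; left; omega⟩
  by_cases a7 : i % 2 = 0
  · exact ⟨u, i, by omega, by omega,
      by right; right; right; right; right; right; right; left; omega⟩
  · exact ⟨u, i + 2, by omega, by omega,
      by right; right; right; right; right; right; right; right; omega⟩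

theorem step_ex (u i : ℕ) (h : ok u (i + 1)) : ∃ a b, a ≤ u ∧ b ≤ u ∧ ¬ r u i a b ∧
    ∀ x y, r u (i + 1) x y ↔ (x = a ∧ y = b) ∨ r u i x y := by
  obtain ⟨a, b, ha, hb, ht⟩ := T_ex u i h
  have hu : 3 ≤ u := h.1
  refine ⟨a, b, ha, hb, fun hr => ?_, fun x y => ?_⟩
  · rcases (rT _ _ _ _ hu).1 hr with e | ⟨c, d, h1, h2⟩
    · exact (T_b ht).1 e
    · have := T_u1 ht h1
      unfold L at h2; omega
  · rw [rT _ _ _ _ hu, rT _ _ _ _ hu]
    constructor
    · rintro (e | ⟨c, d, h1, h2⟩)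
      · exact Or.inr (Or.inl e)
      by_cases e : c = u ∧ d = i + 1
      · obtain ⟨rfl, rfl⟩ := e
        exact Or.inl (T_u2 h1 ht hu)
      · exact Or.inr (Or.inr ⟨c, d, h1, by unfold L at h2 ⊢; omega⟩)
    · rintro (⟨rfl, rfl⟩ | e | ⟨c, d, h1, h2⟩)
      · exact Or.inr ⟨_, _, ht, by unfold L; omega⟩
      · exact Or.inl e
      · exact Or.inr ⟨c, d, h1, by unfold L at h2 ⊢; omega⟩

theorem next_iff (u x y : ℕ) (h : 3 ≤ u) : r (u + 1) 0 x y ↔ r u (2 * ((u - 1) / 2)) x y := by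
  rw [rT _ _ _ _ h, rT _ _ _ _ (by omega)]
  refine or_congr Iff.rfl (exists_congr fun a => exists_congr fun b => and_congr_right fun ht => ?_)
  have := (T_b ht).2
  unfold L; omega

def z (u i : ℕ) : ℕ := if i + 1 = u then u - 1 else u

def g (u i x : ℕ) : ℕ :=
  if x = 0 then 1 else if x = 1 then 0 else if u < x then 1 else
    if x % 2 = 0 ∧ x + 2 ≤ i then x + 3 else if x % 2 = 1 ∧ 5 ≤ x ∧ x ≤ i + 1 then x - 3 else
      if x = z u i then 3 else z u i

def rho (u i x : ℕ) : ℕ :=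
  if x ≤ 1 then 0 else if x % 2 = 0 ∧ x + 2 ≤ i then u + 2 - x else
    if x % 2 = 1 ∧ 5 ≤ x ∧ x ≤ i + 1 then u + 5 - x else 1

theorem z_spec (u i : ℕ) : (i + 1 = u ∧ z u i = i) ∨ (i + 1 ≠ u ∧ z u i = u) := by
  unfold z; split_ifs <;> omega

theorem rho_spec (u i x : ℕ) : (x ≤ 1 ∧ rho u i x = 0) ∨
    (2 ≤ x ∧ x % 2 = 0 ∧ x + 2 ≤ i ∧ rho u i x = u + 2 - x) ∨
    (x % 2 = 1 ∧ 5 ≤ x ∧ x ≤ i + 1 ∧ rho u i x = u + 5 - x) ∨
    (x = 3 ∧ rho u i x = 1) ∨ (2 ≤ x ∧ x % 2 = 0 ∧ i < x + 2 ∧ rho u i x = 1) ∨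
    (x % 2 = 1 ∧ 5 ≤ x ∧ i + 1 < x ∧ rho u i x = 1) := by
  unfold rho; split_ifs <;> omega

theorem g_le (u i x : ℕ) (h : ok u i) (hi : i % 2 = 0) (h2 : 2 ≤ i) :
    g u i x ≤ u ∧ g u i x ≠ x := by
  have := z_spec u i
  unfold ok at h; unfold g; split_ifs <;> omega

theorem clC (u i x : ℕ) (h : ok u i) (hi : i % 2 = 0) (h2 : 2 ≤ i) (hx : x ≤ u) :
    rho u i (g u i x) = rho u i x := by
  have h1 := z_spec u i
  have h3 := rho_spec u i x
  have h4 := rho_spec u i (g u i x)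
  unfold ok at h
  generalize rho u i (g u i x) = A at *
  generalize rho u i x = B at *
  have h5 : g u i x = g u i x := rfl
  conv_rhs at h5 => unfold g
  generalize g u i x = G at *
  split_ifs at h5 <;> rcases h3 with h3 | h3 | h3 | h3 | h3 | h3 <;> omega

theorem clA (u i a b : ℕ) (h : ok u i) (hi : i % 2 = 0) (h2 : 2 ≤ i) (ha : a ≤ u) (hb : b ≤ u)
    (hr : rho u i a < rho u i b) : r u i a b := by
  have h3 := rho_spec u i a
  have h4 := rho_spec u i b
  unfold ok at h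
  generalize rho u i a = A at *
  generalize rho u i b = B at *
  rcases cls a with rfl | rfl | rfl | rfl | hx
  · rw [e0]; omega
  · rw [e1]; unfold r1 L; omega
  · omega
  · rw [e3]; unfold r3 L
    rcases h4 with h4 | h4 | h4 | h4 | h4 | h4 <;> omega
  · rw [e4 _ _ _ _ hx]; unfold r4 L
    rcases h3 with h3 | h3 | h3 | h3 | h3 | h3 <;> rcases h4 with h4 | h4 | h4 | h4 | h4 | h4 <;>
      first | (exfalso; omega) | (right; right; right; left; omega) |
        (right; right; right; right; omega) | omega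

theorem clB (u i x y a b : ℕ) (h : ok u i) (hi : i % 2 = 0) (h2 : 2 ≤ i) (ht : T x y a b)
    (hl : L u i a b) : (x = 0 ∧ u < y) ∨ (x ≤ u ∧ y ≤ u ∧ (rho u i x < rho u i y ∨
      (rho u i x = 1 ∧ rho u i y = 1 ∧ x ≠ z u i ∧ y ≠ z u i))) := by
  have h1 := z_spec u i
  have h3 := rho_spec u i x
  have h4 := rho_spec u i y
  unfold ok at h
  unfold L at hl
  generalize rho u i x = A at *
  generalize rho u i y = B at *
  rcases ht with ht | ht | ht | ht | ht | ht | ht | ht | ht <;>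
    rcases h3 with h3 | h3 | h3 | h3 | h3 | h3 <;> (try (exfalso; omega)) <;>
    rcases h4 with h4 | h4 | h4 | h4 | h4 | h4 <;> omega

theorem g_mid (u i x : ℕ) (hx : x ≤ u) (h : rho u i x = 1) (hz : x ≠ z u i) : g u i x = z u i := by
  have h3 := rho_spec u i x
  unfold g; split_ifs <;> omega

theorem g_mono (u i x y : ℕ) (h : ok u i) (hi : i % 2 = 0) (h2 : 2 ≤ i) (hr : r u i x y) :
    r u i (g u i x) (g u i y) := by
  rcases (rT _ _ _ _ h.1).1 hr with rfl | ⟨a, b, ht, hl⟩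
  · exact r_refl _ _ _
  rcases clB u i x y a b h hi h2 ht hl with ⟨rfl, hy⟩ | ⟨hx, hy, hc | hc⟩
  · have : g u i y = g u i 0 := by have := h.1; unfold g; split_ifs <;> omega
    rw [this]; exact r_refl _ _ _
  · refine clA u i _ _ h hi h2 (g_le u i x h hi h2).1 (g_le u i y h hi h2).1 ?_
    rwa [clC u i x h hi h2 hx, clC u i y h hi h2 hy]
  · rw [g_mid u i x hx hc.1 hc.2.2.1, g_mid u i y hy hc.2.1 hc.2.2.2]; exact r_refl _ _ _

def Fo (u i x x' : ℕ) : Prop := ∀ t, r u i 1 t → r u i t x ∨ r u i x t ∨ t = x'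

theorem act (u i t : ℕ) (h : r u i 1 t) : t = 1 ∨ (t = 2 ∧ L u i 3 1) ∨ (3 ≤ t ∧ L u i t 2) := by
  rw [e1] at h; exact h

theorem fo3 (u i : ℕ) (h : ok u i) (hu : u % 2 = 0) (hi : 1 ≤ i) :
    Fo u i 3 (if i = 1 then 1 else u) := by
  intro t ht
  unfold ok at h
  rcases act u i t ht with rfl | ht | ht
  · left; rw [e1]; unfold r1 L; omega
  · right; left; rw [e3]; unfold r3 L at *; omega
  · right; rw [e3]; unfold r3 L at *; split_ifs <;> omega

theorem foE (u i : ℕ) (h : ok u i) (hu : u % 2 = 1) (h5 : 5 ≤ u) (hi : 1 ≤ i) :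
    Fo u i (u - 3) (if i = 1 then 1 else u) := by
  intro t ht
  unfold ok at h
  rcases act u i t ht with rfl | ht | ht
  · left; rw [e1]; unfold r1 L; omega
  · by_cases e : u = 5
    · left; rw [ht.1, e2]; omega
    · right; left; rw [e4 _ _ _ _ (by omega)]; unfold r4 L; omega
  by_cases e3' : t = 3
  · left; rw [e3', e3]; unfold r3 L; omega
  by_cases e' : t = u - 1
  · left; rw [e4 _ _ _ _ (by omega)]; unfold r4 L; omega
  by_cases e'' : t = u
  · right; right; unfold L at ht; split_ifs <;> omega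
  unfold L at ht
  by_cases e : u = 5
  · omega
  right; left; rw [e4 _ _ _ _ (by omega)]; unfold r4 L
  by_cases e5 : t = u - 3
  · left; omega
  by_cases e6 : t % 2 = 0
  · by_cases e7 : t + 5 = u
    · right; left; omega
    · right; right; right; left; omega
  · by_cases e7 : t + 2 = u
    · right; right; left; omega
    · right; right; right; right; omega

theorem foJ (u i : ℕ) (h : ok u i) (hi : i % 2 = 1) (h3 : 3 ≤ i) (hu : i + 3 ≤ u) :
    Fo u i (i - 1) (i + 2) := by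
  intro t ht
  unfold ok at h
  rcases act u i t ht with rfl | ht | ht
  · left; rw [e1]; unfold r1 L; omega
  · by_cases e : i = 3
    · left; rw [ht.1, e2]; omega
    · right; left; rw [e4 _ _ _ _ (by omega)]; unfold r4 L; omega
  by_cases e3' : t = 3
  · left; rw [e3', e3]; unfold r3 L; omega
  by_cases e' : t = i + 2
  · right; right; exact e'
  unfold L at ht
  by_cases e8 : i + 1 ≤ t
  · left; rw [e4 _ _ _ _ (by omega)]; unfold r4 L
    by_cases e9 : t = i + 1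
    · right; left; omega
    · right; right; right; left; omega
  by_cases e : i = 3
  · omega
  right; left; rw [e4 _ _ _ _ (by omega)]; unfold r4 L
  by_cases e5 : t = i - 1
  · left; omega
  by_cases e6 : t % 2 = 0
  · by_cases e7 : t + 3 = i
    · right; left; omega
    · right; right; right; left; omega
  · by_cases e7 : t = i
    · right; right; left; omega
    · right; right; right; right; omega

theorem foL (u i : ℕ) (hu : u % 2 = 1) (h5 : 5 ≤ u) (hi : i + 2 = u) : Fo u i (u - 1) 3 := by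
  intro t ht
  rcases act u i t ht with rfl | ht | ht
  · left; rw [e1]; unfold r1 L; omega
  · right; left; rw [e4 _ _ _ _ (by omega)]; unfold r4 L; omega
  by_cases e3' : t = 3
  · right; right; exact e3'
  unfold L at ht
  right; left; rw [e4 _ _ _ _ (by omega)]; unfold r4 L
  by_cases e5 : t = u - 1
  · left; omega
  by_cases e6 : t % 2 = 0
  · by_cases e7 : t + 3 = u
    · right; left; omega
    · right; right; right; left; omega
  · by_cases e7 : t = u
    · right; right; left; omega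
    · right; right; right; right; omega

theorem forced (u i : ℕ) (h : ok u i) (hi : i % 2 = 1) : ∃ x y x' y', x ≤ u ∧ y ≤ u ∧ x ≠ 1 ∧
    y ≠ 1 ∧ r u i x y ∧ Fo u i x x' ∧ Fo u i y y' ∧
      (r u i x' x ∨ ¬ r u i x' y') := by
  have h' := h
  unfold ok at h'
  by_cases a1 : u = 3
  · refine ⟨2, 2, 2, 2, by omega, by omega, by omega, by omega, r_refl _ _ _, ?_, ?_,
      Or.inl (r_refl _ _ _)⟩ <;>
    · intro t ht
      rcases act u i t ht with rfl | ht | ht
      · left; rw [e1]; unfold r1 L; omega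
      · right; right; exact ht.1
      · unfold L at ht; omega
  by_cases a2 : u % 2 = 0
  · have f3 := fo3 u i h a2 (by omega)
    by_cases a3 : i = 1
    · rw [if_pos a3] at f3
      exact ⟨3, 3, 1, 1, by omega, by omega, by omega, by omega, r_refl _ _ _, f3, f3,
        Or.inl (by rw [e1]; unfold r1 L; omega)⟩
    · rw [if_neg a3] at f3
      refine ⟨3, i - 1, u, i + 2, by omega, by omega, by omega, by omega, ?_, f3,
        foJ u i h hi (by omega) (by omega), Or.inr ?_⟩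
      · rw [e3]; unfold r3 L; omega
      · rw [e4 _ _ _ _ (by omega)]; unfold r4 L; omega
  have fE := foE u i h (by omega) (by omega) (by omega)
  by_cases a3 : i = 1
  · rw [if_pos a3] at fE
    exact ⟨u - 3, u - 3, 1, 1, by omega, by omega, by omega, by omega, r_refl _ _ _, fE, fE,
      Or.inl (by rw [e1]; unfold r1 L; omega)⟩
  rw [if_neg a3] at fE
  by_cases a4 : i + 2 = u
  · refine ⟨u - 1, u - 3, 3, u, by omega, by omega, by omega, by omega, ?_,
      foL u i (by omega) (by omega) a4, fE, Or.inr ?_⟩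
    · rw [e4 _ _ _ _ (by omega)]; unfold r4 L; omega
    · rw [e3]; unfold r3 L; omega
  · refine ⟨u - 3, i - 1, u, i + 2, by omega, by omega, by omega, by omega, ?_, fE,
      foJ u i h hi (by omega) (by omega), Or.inr ?_⟩
    · rw [e4 _ _ _ _ (by omega)]; unfold r4 L
      by_cases e : i + 4 = u
      · right; left; omega
      · right; right; right; left; omega
    · rw [e4 _ _ _ _ (by omega)]; unfold r4 L; omega

variable {n : ℕ}

def R (n u i : ℕ) : Finset (Fin n × Fin n) := univ.filter fun p => r u i p.1 p.2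

theorem mR (u i : ℕ) (x y : Fin n) : (x, y) ∈ R n u i ↔ r u i x y := by simp [R]

theorem oR (u i : ℕ) (h : ok u i) : IsOrd (R n u i) :=
  ⟨fun x => (mR _ _ _ _).2 (r_refl _ _ _),
    fun x y h1 h2 => Fin.ext (r_anti u i _ _ ((mR _ _ _ _).1 h1) ((mR _ _ _ _).1 h2)),
    fun x y z h1 h2 => (mR _ _ _ _).2 (r_trans u i _ _ _ h ((mR _ _ _ _).1 h1) ((mR _ _ _ _).1 h2))⟩

theorem stepR (u i : ℕ) (h : ok u (i + 1)) (hu : u < n) : Step (R n u i) (R n u (i + 1)) := by
  obtain ⟨a, b, ha, hb, h1, h2⟩ := step_ex u i h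
  refine ⟨(⟨a, by omega⟩, ⟨b, by omega⟩), by rwa [mR], ?_⟩
  ext ⟨x, y⟩
  rw [mem_insert, mR, mR, h2]
  simp [Fin.ext_iff]

theorem fppR (u i : ℕ) (h : ok u i) (hi : i % 2 = 1) (hu : u < n) : HasFPP (R n u i) := by
  by_contra hF
  obtain ⟨f, hf, hn⟩ := inc_map (oR u i h) hF
  simp only [mR] at hf hn
  obtain ⟨x, y, x', y', hx, hy, x1, y1, hxy, fx, fy, hc⟩ := forced u i h hi
  have h3 := h.1
  have f0 : (f ⟨0, by omega⟩).1 = 1 := by
    have := (hn ⟨0, by omega⟩).1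
    simp only [e0] at this
    omega
  have key : ∀ (a : ℕ) (ha : a < n) a', a ≠ 1 → Fo u i a a' → (f ⟨a, ha⟩).1 = a' := by
    intro a ha a' h1 h2
    have := hf ⟨0, by omega⟩ ⟨a, ha⟩ (by simp only [e0]; exact h1)
    rw [f0] at this
    rcases h2 _ this with h | h | h
    · exact absurd h (hn ⟨a, ha⟩).2
    · exact absurd h (hn ⟨a, ha⟩).1
    · exact h
  have k1 := key x (by omega) x' x1 fx
  have k2 := key y (by omega) y' y1 fy
  rcases hc with hc | hc
  · rw [← k1] at hc; exact (hn ⟨x, by omega⟩).2 hc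
  · have := hf ⟨x, by omega⟩ ⟨y, by omega⟩ hxy
    rw [k1, k2] at this; exact hc this

theorem nfppR (u i : ℕ) (h : ok u i) (hi : i % 2 = 0) (h2 : 2 ≤ i) (hu : u < n) :
    ¬ HasFPP (R n u i) := by
  intro hF
  obtain ⟨x, hx⟩ := hF (fun x => ⟨g u i x, by have := (g_le u i x h hi h2).1; omega⟩)
    (fun x y hxy => by rw [mR] at hxy ⊢; exact g_mono u i _ _ h hi h2 hxy)
  exact (g_le u i x h hi h2).2 (congrArg Fin.val hx)

open Classical in
noncomputable def w (S T : Finset (Fin n × Fin n)) : ℕ := if ¬ HasFPP S ∧ HasFPP T then 1 else 0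

theorem w_le (S T : Finset (Fin n × Fin n)) : w S T ≤ 1 := by unfold w; split_ifs <;> omega

theorem one_le {S U : Finset (Fin n × Fin n)} {k m : ℕ} (h : Pth w S U k m) (h1 : ¬ HasFPP S)
    (h2 : HasFPP U) : 1 ≤ m := by
  induction h with
  | nil => exact absurd h2 h1
  | @snoc A B k m _ _ _ ih =>
    by_cases e : HasFPP A
    · have := ih e; omega
    · have : w A B = 1 := by unfold w; rw [if_pos ⟨e, h2⟩]
      omega

def base : ℕ → ℕ
  | 0 => 0
  | u + 1 => base u + (u - 1) / 2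

theorem base_eq (k : ℕ) : 4 * base (k + 2) + k % 2 = k * k := by
  induction k with
  | zero => rfl
  | succ k ih =>
    rw [base, show (k + 1) * (k + 1) = k * k + 2 * k + 1 by ring]
    omega

def Good (n u i b : ℕ) : Prop :=
  ¬ HasFPP (R n u i) ∧ ∃ k m, Pth w univ.diag (R n u i) k m ∧ b ≤ m

theorem inner (u b : ℕ) (h3 : 3 ≤ u) (hu : u < n) (h0 : Good n u 0 b) :
    ∀ j, j ≤ (u - 1) / 2 → Good n u (2 * j) (b + j) := by
  intro j
  induction j with
  | zero => intro _; exact h0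
  | succ j ih =>
    intro hj
    obtain ⟨h1, k, m, hp, hm⟩ := ih (by omega)
    have o1 : ok u (2 * j + 1) := by unfold ok; omega
    have o2 : ok u (2 * j + 1 + 1) := by unfold ok; omega
    refine ⟨nfppR u _ o2 (by omega) (by omega) hu, _, _,
      (hp.snoc (stepR u _ o1 hu) (oR u _ o1)).snoc (stepR u _ o2 hu) (oR u _ o2), ?_⟩
    have : w (R n u (2 * j)) (R n u (2 * j + 1)) = 1 := by
      unfold w; rw [if_pos ⟨h1, fppR u _ o1 (by omega) hu⟩]
    omega

theorem outer (hn : 4 ≤ n) : ∀ v, v + 3 ≤ n → Good n (v + 3) 0 (base (v + 3)) := by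
  intro v
  induction v with
  | zero =>
    intro _
    have o : IsOrd (R n 3 0) := oR 3 0 (by unfold ok; omega)
    obtain ⟨k, hk⟩ := Nat.exists_eq_add_of_le (card_le_card (diag_sub o))
    obtain ⟨m, -, hp⟩ := exists_pth w 1 o k _ ord_diag (diag_sub o) hk (fun M T _ _ _ => w_le M T)
    refine ⟨not_fpp_of_label o.1 (fun x : Fin n => decide (x.1 = 1)) (fun x y h => ?_)
      ⟨0, by omega⟩ ⟨1, by omega⟩ (by simp), k, m, hp, by simp [base]⟩
    rw [mR, rT _ _ _ _ le_rfl] at h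
    simp only [decide_eq_decide]
    rcases h with h | ⟨a, b, h, hl⟩
    · rw [h]
    · unfold L at hl
      rcases h with h | h | h | h | h | h | h | h | h <;> omega
  | succ v ih =>
    intro hv
    have := inner (v + 3) _ (by omega) (by omega) (ih (by omega)) _ le_rfl
    have e : R n (v + 1 + 3) 0 = R n (v + 3) (2 * ((v + 3 - 1) / 2)) := by
      ext ⟨x, y⟩; rw [mR, mR]; exact next_iff (v + 3) x y (by omega)
    unfold Good at this ⊢
    rw [e]; exact this

theorem upper (hn : 2 ≤ n) {c : ℕ → Finset (Fin n × Fin n)} (hc : IsMaxCh n c) :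
    adjCount n c ≤ (n - 2) ^ 2 / 4 + 1 := by
  classical
  unfold adjCount
  rw [← card_range ((n - 2) ^ 2 / 4 + 1)]
  obtain ⟨k, rfl⟩ : ∃ k, n = k + 2 := ⟨n - 2, by omega⟩
  have h2 := two_choose (k + 2)
  rw [show (k + 2) * (k + 2) = k * k + 4 * k + 4 by ring] at h2
  have h3 := base_eq k
  refine card_le_card_of_injOn (fun i => (i - k) / 2) (fun i hi => ?_) (fun i hi j hj e => ?_)
  · rw [mem_coe, mem_filter, mem_range] at hi
    have := top_fpp hc i (by omega) hi.2.1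
    simp only [coe_range, Set.mem_Iio, Nat.add_sub_cancel, sq]
    omega
  · rw [mem_coe, mem_filter, mem_range] at hi hj
    have a := bot_fpp hc _ (by omega) hi.2.2
    have b := bot_fpp hc _ (by omega) hj.2.2
    simp only at e
    by_contra hne
    have : j = i + 1 ∨ i = j + 1 := by omega
    rcases this with rfl | rfl
    · exact hj.2.1 hi.2.2
    · exact hi.2.1 hj.2.2

theorem finish {S : Finset (Fin n × Fin n)} {k m : ℕ} (hn : 1 ≤ n) (hS : IsOrd S)
    (h : ¬ HasFPP S) (hp : Pth w univ.diag S k m) : ∃ c, IsMaxCh n c ∧ m + 1 ≤ adjCount n c := by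
  classical
  obtain ⟨U, hU, hs, ht⟩ := exists_total hS
  obtain ⟨k', hk⟩ := Nat.exists_eq_add_of_le (card_le_card hs)
  obtain ⟨m', -, hp'⟩ := exists_pth w 1 hU k' _ hS hs hk (fun M T _ _ _ => w_le M T)
  have hF : HasFPP U := by
    by_contra hF
    obtain ⟨f, -, hf⟩ := inc_map hU hF
    exact (ht _ _).elim (hf ⟨0, by omega⟩).1 (hf ⟨0, by omega⟩).2
  have := one_le hp' h hF
  obtain ⟨c, hc, e⟩ := chain_of_pth (hp.trans hp') hU ht
  refine ⟨c, hc, ?_⟩
  unfold adjCount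
  rw [card_filter]
  unfold w at e
  omega

theorem result (n : ℕ) (hn : 1 ≤ n) :
    IsGreatest {k | ∃ c, IsMaxCh n c ∧ adjCount n c = k}
      (if n = 1 then 0 else (n - 2) ^ 2 / 4 + 1) := by
  split_ifs with h1
  · subst h1
    have z : ∀ c, adjCount 1 c = 0 := fun c => by simp [adjCount]
    refine ⟨⟨fun _ => univ.diag, ⟨rfl, fun _ _ => ord_diag, fun i hi => by simp at hi,
      fun x y => Or.inl (mem_diag.2 ⟨mem_univ _, Subsingleton.elim x y⟩)⟩, z _⟩, ?_⟩
    rintro k ⟨c, -, rfl⟩; rw [z]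
  refine ⟨?_, by rintro k ⟨c, hc, rfl⟩; exact upper (by omega) hc⟩
  suffices h : ∃ c, IsMaxCh n c ∧ (n - 2) ^ 2 / 4 + 1 ≤ adjCount n c by
    obtain ⟨c, hc, h⟩ := h
    exact ⟨c, hc, le_antisymm (upper (by omega) hc) h⟩
  by_cases h4 : 4 ≤ n
  · obtain ⟨v, rfl⟩ : ∃ v, n = v + 4 := ⟨n - 4, by omega⟩
    obtain ⟨a, k, m, hp, hm⟩ := inner (v + 3) _ (by omega) (by omega)
      (outer h4 v (by omega)) _ le_rfl
    obtain ⟨c, hc, h⟩ := finish hn (oR _ _ (by unfold ok; omega)) a hp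
    refine ⟨c, hc, ?_⟩
    have h3 := base_eq (v + 2)
    have h5 : base (v + 2 + 2) = base (v + 3) + (v + 3 - 1) / 2 := rfl
    rw [show v + 4 - 2 = v + 2 by omega, sq]
    omega
  · obtain ⟨c, hc, h⟩ := finish hn ord_diag (not_fpp_of_label ord_diag.1 id
      (fun x y h => by simpa using h) ⟨0, by omega⟩ ⟨1, by omega⟩ (by simp)) Pth.nil
    refine ⟨c, hc, ?_⟩
    have : n = 2 ∨ n = 3 := by omega
    rcases this with rfl | rfl <;> simpa using h

end Pool.Agent.Results.MP_eb30e1_co.MaxAdj
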