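import Pool.Agent.H31.FPP

namespace Pool.Agent.Results.MP_eb30e1_co.MinFPP

open Finset Pool.Agent.H31.FPP

variable {n : ℕ}

theorem extra {P' P : Finset (Fin n × Fin n)} (hP' : IsOrd P') (hP : IsOrd P) (hs : Step P' P)
    (hc : #(inc P) ≤ n) (h1 : ¬ HasFPP P') (h2 : ¬ HasFPP P) : False := by
  obtain ⟨⟨x, y⟩, hxy, e⟩ := hs
  obtain ⟨f, hf, hf'⟩ := inc_map hP' h1
  obtain ⟨g, -, hg'⟩ := inc_map hP h2
  obtain ⟨a, b⟩ := card_inc_ge g hg'
  have he := eq_of_subset_of_card_le a (by omega)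
  have key : ∀ u v, (u, v) ∉ P → (v, u) ∉ P → v = g u := by
    intro u v h h'
    have : (u, v) ∈ inc P := by simp only [inc, mem_filter, mem_univ, true_and]; exact ⟨h, h'⟩
    rw [← he] at this
    simp only [mem_image, mem_univ, true_and, Prod.mk.injEq] at this
    obtain ⟨t, rfl, rfl⟩ := this
    rfl
  have hm : ∀ u v, (u, v) ∈ P ↔ (u = x ∧ v = y) ∨ (u, v) ∈ P' := by
    intro u v; rw [e]; simp
  have hin : (x, y) ∈ P := (hm x y).2 (Or.inl ⟨rfl, rfl⟩)
  have gg : ∀ u, g (g u) = u := fun u => (key _ _ (hg' u).2 (hg' u).1).symm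
  have hne : x ≠ y := by rintro rfl; exact hxy (hP'.1 x)
  have n1 : g x ≠ x := fun h => (hg' x).1 (by rw [h]; exact hP.1 x)
  have n2 : g x ≠ y := fun h => (hg' x).1 (by rw [h]; exact hin)
  have n3 : g y ≠ y := fun h => (hg' y).1 (by rw [h]; exact hP.1 y)
  have n4 : g y ≠ x := fun h => (hg' y).2 (by rw [h]; exact hin)
  have ff : ∀ u, u ≠ x → u ≠ y → f u = g u := fun u ha hb => key _ _
    (fun h => ((hm _ _).1 h).elim (fun h => ha h.1) (hf' u).1)
    (fun h => ((hm _ _).1 h).elim (fun h => hb h.2) (hf' u).2)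
  have c1 : (g x, y) ∈ P := by
    by_contra h
    have := key _ _ h (fun h' => (hg' x).1 (hP.2.2 _ _ _ hin h'))
    rw [gg] at this; exact hne this.symm
  have c2 : (g x, g y) ∈ P := by
    by_contra h
    have := key _ _ h (fun h' => (hg' y).2 (hP.2.2 _ _ _ h' c1))
    rw [gg] at this; exact n4 this
  have c3 := hf _ _ (((hm _ _).1 c2).resolve_left (fun h => n1 h.1))
  rw [ff _ n1 n2, ff _ n4 n3, gg, gg] at c3
  exact hxy c3

theorem lower (hn : 1 ≤ n) {c : ℕ → Finset (Fin n × Fin n)} (hc : IsMaxCh n c) :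
    (if n = 2 then 1 else n / 2 + 1) ≤ fppCount n c := by
  classical
  have h2 := two_choose n
  unfold fppCount
  have hsub : Icc (n.choose 2 - (n - 1) / 2) (n.choose 2) ⊆
      {i ∈ range (n.choose 2 + 1) | HasFPP (c i)} := by
    intro i hi
    rw [mem_Icc] at hi
    rw [mem_filter, mem_range]
    refine ⟨by omega, ?_⟩
    by_contra h
    have := top_fpp hc i hi.2 h
    omega
  have hN : n ≤ 2 * n.choose 2 + 1 := by nlinarith
  have h3 := card_le_card hsub
  rw [Nat.card_Icc] at h3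
  split_ifs with e
  · omega
  by_cases ho : n % 2 = 1
  · omega
  have hN' : n + 2 ≤ 2 * n.choose 2 := by
    have : 4 ≤ n := by omega
    nlinarith
  have : ∃ j, j < n.choose 2 - (n - 1) / 2 ∧ HasFPP (c j) := by
    by_contra h
    push Not at h
    have e1 : n.choose 2 - n / 2 - 1 + 1 = n.choose 2 - n / 2 := by omega
    have hs := hc.2.2.1 (n.choose 2 - n / 2 - 1) (by omega)
    rw [e1] at hs
    have := inc_le hc (n / 2) (n.choose 2 - n / 2) (by omega)
    exact extra (hc.2.1 _ (by omega)) (hc.2.1 _ (by omega)) hs (by omega) (h _ (by omega))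
      (h _ (by omega))
  obtain ⟨j, hj, hF⟩ := this
  have h4 := card_le_card (insert_subset (show j ∈ _ from
    mem_filter.2 ⟨mem_range.2 (by omega), hF⟩) hsub)
  rw [card_insert_of_notMem (by rw [mem_Icc]; omega), Nat.card_Icc] at h4
  omega

open Classical in
noncomputable def w (_ T : Finset (Fin n × Fin n)) : ℕ := if HasFPP T then 1 else 0

theorem w_le (S T : Finset (Fin n × Fin n)) : w S T ≤ 1 := by unfold w; split_ifs <;> omega

theorem count_eq (hn : 2 ≤ n) {c : ℕ → Finset (Fin n × Fin n)} (hc : IsMaxCh n c) :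
    fppCount n c = ∑ i ∈ range (n.choose 2), w (c i) (c (i + 1)) := by
  classical
  unfold fppCount w
  rw [card_filter, sum_range_succ']
  have : ¬ HasFPP (c 0) := fun h => by have := bot_fpp hc 0 (by omega) h; omega
  simp [this]

def rB (t x y : ℕ) : Prop := x = y ∨ (x < y ∧ x ≠ t ∧ ¬ (x % 2 = 0 ∧ y = x + 1 ∧ x < t))

instance (t x y : ℕ) : Decidable (rB t x y) := by unfold rB; infer_instance

def gB (t x : ℕ) : ℕ :=
  if x < t then (if x % 2 = 0 then x + 1 else x - 1) else if x = t then t + 1 else t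

theorem upper (hn : 3 ≤ n) : ∃ c, IsMaxCh n c ∧ fppCount n c ≤ n / 2 + 1 := by
  obtain ⟨t, ht⟩ : ∃ t, t = 2 * ((n - 3) / 2) := ⟨_, rfl⟩
  let B : Finset (Fin n × Fin n) := univ.filter fun p => rB t p.1 p.2
  let A : Finset (Fin n × Fin n) := B.filter fun p => p.1 = p.2 ∨ p.2.1 + 1 < n
  let L : Finset (Fin n × Fin n) := univ.filter fun p => p.1.1 ≤ p.2.1
  have mB : ∀ x y, (x, y) ∈ B ↔ rB t x y := fun x y => by simp [B]
  have mA : ∀ x y : Fin n, (x, y) ∈ A ↔ rB t x y ∧ (x.1 = y.1 ∨ y.1 + 1 < n) := fun x y => by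
    simp [A, B, Fin.ext_iff]
  have mL : ∀ x y : Fin n, (x, y) ∈ L ↔ x.1 ≤ y.1 := fun x y => by simp [L]
  have oB : IsOrd B := ⟨fun x => by rw [mB]; left; rfl,
    fun x y h1 h2 => by rw [mB] at h1 h2; unfold rB at h1 h2; ext; omega,
    fun x y z h1 h2 => by rw [mB] at h1 h2 ⊢; unfold rB at h1 h2 ⊢; omega⟩
  have oA : IsOrd A := ⟨fun x => by rw [mA]; exact ⟨Or.inl rfl, Or.inl rfl⟩,
    fun x y h1 h2 => by rw [mA] at h1 h2; unfold rB at h1 h2; ext; omega,
    fun x y z h1 h2 => by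
      rw [mA] at h1 h2 ⊢; unfold rB at h1 h2 ⊢; have := y.2; have := z.2; omega⟩
  have oL : IsOrd L := ⟨fun x => by rw [mL],
    fun x y h1 h2 => by rw [mL] at h1 h2; ext; omega,
    fun x y z h1 h2 => by rw [mL] at h1 h2 ⊢; omega⟩
  have AB : A ⊆ B := filter_subset _ _
  have BL : B ⊆ L := fun p hp => by
    have := (mB p.1 p.2).1 hp
    refine (mL p.1 p.2).2 ?_
    unfold rB at this; omega
  obtain ⟨k1, hk1⟩ := Nat.exists_eq_add_of_le (card_le_card (diag_sub oA))
  obtain ⟨k2, hk2⟩ := Nat.exists_eq_add_of_le (card_le_card AB)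
  obtain ⟨k3, hk3⟩ := Nat.exists_eq_add_of_le (card_le_card BL)
  obtain ⟨m1, h1, p1⟩ := exists_pth w 0 oA k1 _ ord_diag (diag_sub oA) hk1 (fun M T hT _ h => by
    have : ¬ HasFPP T := not_fpp_of_label hT.1 (fun x : Fin n => decide (x.1 + 1 < n))
      (fun x y hxy => by
        have := (mA x y).1 (h hxy)
        unfold rB at this
        simp only [decide_eq_decide]; omega) ⟨0, by omega⟩ ⟨n - 1, by omega⟩
      (by simp only [ne_eq, decide_eq_decide]; omega)
    simp [w, this])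
  obtain ⟨m2, h2, p2⟩ := exists_pth w 0 oB k2 _ oA AB hk2 (fun M T hT h' h => by
    have : ¬ HasFPP T := fun hF => by
      obtain ⟨x, hx⟩ := hF (fun x => ⟨gB t x, by unfold gB; split_ifs <;> omega⟩)
        (fun x y hxy => by
          have := (mB x y).1 (h hxy)
          refine h' ((mA _ _).2 ?_)
          unfold rB at this ⊢
          simp only [gB]
          split_ifs <;> omega)
      have := congrArg Fin.val hx
      simp only [gB] at this
      split_ifs at this <;> omega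
    simp [w, this])
  obtain ⟨m3, h3, p3⟩ := exists_pth w 1 oL k3 _ oB BL hk3 (fun M T _ _ _ => w_le M T)
  obtain ⟨c, hc, e⟩ := chain_of_pth ((p1.trans p2).trans p3) oL
    (fun x y => by rw [mL, mL]; omega)
  refine ⟨c, hc, ?_⟩
  rw [count_eq (by omega) hc, e]
  have : #(L \ B) ≤ #(range (n / 2 + 1)) := by
    refine card_le_card_of_injOn (fun p => if p.2.1 < t then p.2.1 / 2 else p.2.1 - t - 1 + t / 2)
      (fun p hp => ?_) (fun p hp q hq e => ?_)
    · have := p.2.2
      simp only [coe_range, Set.mem_Iio]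
      split_ifs <;> omega
    · rw [mem_coe, mem_sdiff] at hp hq
      have a1 := (mL p.1 p.2).1 hp.1
      have a2 := (mL q.1 q.2).1 hq.1
      have a3 : ¬ rB t p.1 p.2 := fun h => hp.2 ((mB p.1 p.2).2 h)
      have a4 : ¬ rB t q.1 q.2 := fun h => hq.2 ((mB q.1 q.2).2 h)
      unfold rB at a3 a4
      simp only at e
      ext <;> split_ifs at e <;> omega
  rw [card_sdiff_of_subset BL, card_range] at this
  omega

theorem result (n : ℕ) (hn : 1 ≤ n) :
    IsLeast {k | ∃ c, IsMaxCh n c ∧ fppCount n c = k} (if n = 2 then 1 else n / 2 + 1) := by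
  refine ⟨?_, by rintro k ⟨c, hc, rfl⟩; exact lower hn hc⟩
  suffices h : ∃ c, IsMaxCh n c ∧ fppCount n c ≤ if n = 2 then 1 else n / 2 + 1 by
    obtain ⟨c, hc, h⟩ := h
    exact ⟨c, hc, le_antisymm h (lower hn hc)⟩
  by_cases h3 : 3 ≤ n
  · rw [if_neg (by omega)]; exact upper h3
  obtain ⟨L, hL, hs, ht⟩ := exists_total (ord_diag (n := n))
  obtain ⟨k, hk⟩ := Nat.exists_eq_add_of_le (card_le_card hs)
  obtain ⟨m, -, p⟩ := exists_pth w 1 hL k _ ord_diag hs hk (fun M T _ _ _ => w_le M T)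
  obtain ⟨c, hc, -⟩ := chain_of_pth p hL ht
  refine ⟨c, hc, ?_⟩
  split_ifs with e
  · rw [count_eq (by omega) hc]
    subst e
    simpa using w_le _ _
  · have : n = 1 := by omega
    subst this
    unfold fppCount
    classical
    exact (card_filter_le _ _).trans (by simp)

end Pool.Agent.Results.MP_eb30e1_co.MinFPP
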